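import Mathlib
import Pool.Agent.V1162.CR.Final2

set_option autoImplicit false

/-!
Every `k ≥ 8` with `k ≠ 9` belongs to the set `𝒦`: there is a connected `P_k`-free graph of cop
number larger than `⌊(k - 1) / 2⌋`.  So `𝒦` contains all integers `k ≥ 7` except possibly 7 and 9.

More generally, for all `a, b` (not both zero) there is a connected `P_(5a+2b+1)`-free graph with cop
number at least `3 a + b`.

The vertex set is divided into `a` sparse pieces and `b` cliques.  Inside a sparse piece the
non-edges form a random graph of density about `n^(-1/2)`, from which the edges of a maximal family
of edge-disjoint copies of the complement of `P_6` are deleted; pairs in different pieces are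
independently made edges or non-edges with probability 1/2.  An induced path has at most 5 vertices
in a sparse piece and at most 2 in a clique.  If there are fewer than `3 a + b` cops, then some sparse
piece contains at most 2 of them or some clique contains none, and there the robber always finds a
neighbour of its vertex which is neither occupied by nor adjacent to any cop.
-/

namespace Pool.Agent.Results.MP_dfa28f_co.AllButTwoLengths

open Pool.Agent.V1162.CR

/-- **Every `k ≥ 8` other than `9` belongs to `𝒦`**, and for all `a, b`, not both zero, there is a
connected graph without an induced path on `5 a + 2 b + 1` vertices with cop number at least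
`3 a + b`. -/
theorem result :
    (∀ k : ℕ, 8 ≤ k → k ≠ 9 → k ∈ setK) ∧
    ∀ a b : ℕ, 1 ≤ a + b → ∃ (V : Type) (_ : Fintype V) (G : SimpleGraph V), G.Connected ∧
      PathFree G (5 * a + 2 * b + 1) ∧ 3 * a + b ≤ copNumber G :=
  ⟨fun _ hk hk9 => mem_setK_of hk hk9, fun a b h => exists_ab a b h⟩

end Pool.Agent.Results.MP_dfa28f_co.AllButTwoLengths
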